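import Pool.Agent.MP_48b1c3_nt.H91.Norm

/-! Definitions for the algebraic part: the CM field, norm forms, valuations. -/

set_option autoImplicit false

namespace Pool.Agent.MP_a59382_lc.V3

open NumberField IsDedekindDomain Pool.Agent.MP_48b1c3_nt.H91

/-- `x` is represented by the norm form of `k (√d)` -/
def Nf {k : Type} [Field k] (d x : k) : Prop := ∃ a b : k, x = a ^ 2 - d * b ^ 2

/-- the additive valuation, with value zero at zero -/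
noncomputable def ord {k : Type} [Field k] [NumberField k] (v : HeightOneSpectrum (𝓞 k)) (x : k) :
    ℤ := -WithZero.log (v.valuation k x)

/-- the special primes -/
def Sp (m p : ℕ) : Prop := p.Prime ∧ p + 1 ≡ 2 ^ (m - 1) [MOD 2 ^ m]

/-- the passengers -/
def Pa (m p : ℕ) : Prop := p.Prime ∧ p ≠ 2 ∧ ¬ p ≡ 1 [MOD 2 ^ (m - 1)] ∧ ¬ 2 ^ (m - 1) ∣ p + 1

variable (K : Type) [Field K] [NumberField K] [IsCMField K]

variable {K} in
/-- complex conjugation on the field -/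
noncomputable abbrev cK (x : K) : K := IsCMField.complexConj K x

variable {K} in
/-- complex conjugation on the integers -/
noncomputable abbrev cO (x : 𝓞 K) : 𝓞 K := IsCMField.ringOfIntegersComplexConj K x

/-- the properties of the field generated by `ζ - ζ⁻¹`, `ζ` a primitive root of order `2 ^ m` -/
structure FK (m : ℕ) where
  /-- the generator -/
  θ : 𝓞 K
  /-- the element `2 / θ` -/
  t : 𝓞 K
  /-- an element with `u ^ 2 + conj u ^ 2 = -2` -/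
  u : 𝓞 K
  /-- a square root of two -/
  s : 𝓞 K
  hm : 4 ≤ m
  gal : IsGalois ℚ K
  half : ∀ a : 𝓞 K, ∃ δ : 𝓞 K, δ * cO δ = (nm a : ℤ)
  cθ : cO θ = -θ
  θt : θ * t = 2
  nsq : ¬ IsSquare (θ : K)
  n3 : nm (1 - θ) % 4 = 3
  usq : u ^ 2 + cO u ^ 2 = -2
  uu : u * cO u + 2 * t ^ 2 + 1 = 0
  ss : s ^ 2 = 2
  unr : ∀ Q : ℕ, Q.Prime → Q ≠ 2 → ∃ f, 0 < f ∧ ∀ a : 𝓞 K, (Q : 𝓞 K) ∣ a ^ Q ^ f - a
  pas : ∀ Q, Pa m Q → ∃ i, 0 < i ∧ Q ^ i % 4 = 1 ∧ ∀ a : 𝓞 K, (Q : 𝓞 K) ∣ cO a - a ^ Q ^ i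
  spe : ∀ Q, Sp m Q → ∀ a : 𝓞 K, (Q : 𝓞 K) ∣ a ^ Q - a
  fix : ∀ Q : ℕ, Q.Prime → Q ≠ 2 → ¬ Q ≡ 1 [MOD 2 ^ m] → ¬ Sp m Q →
    ∃ i, 0 < i ∧ ∀ a : 𝓞 K, (Q : 𝓞 K) ∣ cO a - a ^ Q ^ i

variable {K} in
/-- `y` is one modulo eight and has even order at all primes not above `F` -/
def Adq (F : Finset ℕ) (y : 𝓞 K) : Prop :=
  y ≠ 0 ∧ (8 : 𝓞 K) ∣ y - 1 ∧ ∀ v : HeightOneSpectrum (𝓞 K),
    (∀ p ∈ F, (p : 𝓞 K) ∉ v.asIdeal) → Even (ord v (y : K))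

variable {K} in
/-- `π` has prime norm congruent to three modulo four and is a norm from all `K (√y)` -/
def Gen (Y : Finset (𝓞 K)) (π : 𝓞 K) : Prop :=
  (nm π).natAbs.Prime ∧ (nm π).natAbs % 4 = 3 ∧ ∀ y ∈ Y, Nf (y : K) (π : K)

end Pool.Agent.MP_a59382_lc.V3
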